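import Mathlib
import Pool.Agent.Rig32f.Derivation

set_option autoImplicit false

namespace Pool.Agent.H61LM

/-- algebraically independent elements have linearly independent differentials -/
theorem lin_of_alg {L : Type} [Field L] [CharZero L] (A : Subring L) {ι : Type} [Finite ι]
    (x : ι → L) (h : AlgebraicIndependent A x) :
    LinearIndependent L (fun i => KaehlerDifferential.D A L (x i)) := by
  classical
  have hF := Fintype.ofFinite ι
  let K := FractionRing A
  let _ : Algebra K L := FractionRing.liftAlgebra A L
  have hK : IsScalarTower A K L := inferInstance
  have hc : CharZero K := by
    have : CharZero A := inferInstance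
    exact charZero_of_injective_algebraMap (IsFractionRing.injective A K)
  have hal : Algebra.IsAlgebraic A K := IsLocalization.isAlgebraic _ (nonZeroDivisors A)
  have hx : AlgebraicIndependent K x := by
    exact h.extendScalars K
  rw [Fintype.linearIndependent_iff]
  intro g hg i
  obtain ⟨D, hD⟩ := Rig32f.exists_derivation x hx (fun j => if j = i then 1 else 0)
  have h1 := congrArg (D.restrictScalars A).liftKaehlerDifferential hg
  rw [map_sum, map_zero] at h1
  simpa [hD] using h1

end Pool.Agent.H61LM
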