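import Mathlib

set_option autoImplicit false

namespace Pool.Agent.H61LM

open MvPolynomial

/-- the chain rule -/
theorem D_aeval {R L : Type} [CommRing R] [Field L] [Algebra R L] {ι : Type} [Fintype ι]
    (x : ι → L) (p : MvPolynomial ι R) :
    KaehlerDifferential.D R L (aeval x p) =
      ∑ i, aeval x (pderiv i p) • KaehlerDifferential.D R L (x i) := by
  classical
  induction p using MvPolynomial.induction_on with
  | C a => simp
  | add p q hp hq => simp [hp, hq, add_smul, Finset.sum_add_distrib]
  | mul_X p n hp =>
    rw [map_mul, aeval_X, Derivation.leibniz, hp]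
    simp only [Derivation.leibniz, pderiv_X, smul_eq_mul, map_add, map_mul, aeval_X, add_smul,
      Finset.sum_add_distrib, Finset.smul_sum, smul_smul]
    congr 1
    rw [Finset.sum_eq_single n]
    · simp
    · intro i _ hi
      rw [Pi.single_eq_of_ne (Ne.symm hi)]
      simp
    · simp

theorem exists_pderiv {R : Type} [CommRing R] [IsDomain R] [CharZero R] {ι : Type}
    (p : MvPolynomial ι R) (h : ∀ i, pderiv i p = 0) : ∃ a, p = C a := by
  classical
  refine ⟨coeff 0 p, ?_⟩
  ext m
  rw [coeff_C]
  split_ifs with hm
  · rw [← hm]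
  · obtain ⟨i, hi⟩ : ∃ i, m i ≠ 0 := by
      by_contra hc
      exact hm (Finsupp.ext fun i => (not_not.1 fun h => hc ⟨i, h⟩).symm)
    have h1 := congrArg (coeff (m - Finsupp.single i 1)) (h i)
    rw [coeff_zero] at h1
    have hs : m - Finsupp.single i 1 + Finsupp.single i 1 = m := by
      refine tsub_add_cancel_of_le ?_
      rw [Finsupp.single_le_iff]
      omega
    rw [coeff_pderiv, hs] at h1
    rcases mul_eq_zero.1 h1 with h2 | h2
    · exact h2
    · exfalso
      have h3 : ((((m - Finsupp.single i 1 : ι →₀ ℕ) i) + 1 : ℕ) : R) ≠ 0 :=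
        Nat.cast_ne_zero.2 (Nat.succ_ne_zero _)
      exact h3 (by push_cast; exact h2)

theorem deg_lt {R : Type} [CommRing R] {ι : Type} (p : MvPolynomial ι R) (i : ι)
    (hne : pderiv i p ≠ 0) : (pderiv i p).totalDegree < p.totalDegree := by
  classical
  have h1 : ∀ m ∈ (pderiv i p).support, (m.sum fun _ e => e) < p.totalDegree := by
    intro m hm
    rw [mem_support_iff, coeff_pderiv] at hm
    have h2 : m + Finsupp.single i 1 ∈ p.support := by
      rw [mem_support_iff]
      exact left_ne_zero_of_mul hm
    have h3 := le_totalDegree h2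
    rw [Finsupp.sum_add_index' (fun _ => rfl) (fun _ _ _ => rfl), Finsupp.sum_single_index rfl] at h3
    omega
  obtain ⟨m, hm⟩ := support_nonempty.2 hne
  rw [totalDegree, Finset.sup_lt_iff]
  · exact h1
  · exact lt_of_le_of_lt (Nat.zero_le _) (h1 m hm)

/-- elements with linearly independent differentials are algebraically independent -/
theorem alg_of_lin {L : Type} [Field L] [CharZero L] (A : Subring L) {ι : Type} [Finite ι]
    (x : ι → L) (h : LinearIndependent L (fun i => KaehlerDifferential.D A L (x i))) :
    AlgebraicIndependent A x := by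
  classical
  have hF := Fintype.ofFinite ι
  rw [algebraicIndependent_iff]
  have key : ∀ n (p : MvPolynomial ι A), p.totalDegree = n → aeval x p = 0 → p = 0 := by
    intro n
    induction n using Nat.strong_induction_on with
    | _ n ih =>
      intro p hn hp
      have h1 := D_aeval x p
      rw [hp, map_zero] at h1
      have h2 := (Fintype.linearIndependent_iff.1 h) (fun i => aeval x (pderiv i p)) h1.symm
      have h3 : ∀ i, pderiv i p = 0 := by
        intro i
        by_contra hne
        have h4 : (pderiv i p).totalDegree < p.totalDegree := deg_lt p i hne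
        exact hne (ih _ (hn ▸ h4) _ rfl (h2 i))
      obtain ⟨a, rfl⟩ := exists_pderiv p h3
      rw [aeval_C] at hp
      have h5 : a = 0 := Subtype.ext hp
      rw [h5, map_zero]
  exact fun p hp => key _ p rfl hp

end Pool.Agent.H61LM
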