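import Mathlib

set_option autoImplicit false

namespace Pool.Agent.H61LM

/-- a finitely generated `ℚ`-algebra without zero divisors has a point over `ℂ` -/
theorem exists_hom {L : Type} [Field L] [Algebra ℚ L] (T : Finset L) :
    Nonempty (Algebra.adjoin ℚ (T : Set L) →ₐ[ℚ] ℂ) := by
  classical
  let R := Algebra.adjoin ℚ (T : Set L)
  have hft : Algebra.FiniteType ℚ R := (Subalgebra.fg_iff_finiteType _).1 ⟨T, rfl⟩
  obtain ⟨M, hM⟩ := Ideal.exists_maximal R
  let _ : Field (R ⧸ M) := Ideal.Quotient.field M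
  have h1 : Algebra.FiniteType ℚ (R ⧸ M) :=
    Algebra.FiniteType.of_surjective (Ideal.Quotient.mkₐ ℚ M) (Ideal.Quotient.mkₐ_surjective ℚ M)
  have h2 : Module.Finite ℚ (R ⧸ M) := finite_of_finite_type_of_isJacobsonRing ℚ (R ⧸ M)
  have h3 : Algebra.IsAlgebraic ℚ (R ⧸ M) := inferInstance
  exact ⟨(IsAlgClosed.lift (R := ℚ) (S := R ⧸ M) (M := ℂ)).comp (Ideal.Quotient.mkₐ ℚ M)⟩

theorem to_complex {L : Type} [Field L] [CharZero L] {V : Type} [AddCommGroup V] [Module L V]
    {n : ℕ} (v : Fin n → V) : ∃ (m : ℕ) (w : Fin n → Fin m → ℂ), ∀ F : Finset (Fin n),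
      LinearIndependent L (fun i : F => v i) ↔ LinearIndependent ℂ (fun i : F => w i) := by
  classical
  let W := Submodule.span L (Set.range v)
  have hW : Module.Finite L W := Module.Finite.span_of_finite L (Set.finite_range v)
  let b := Module.finBasis L W
  let m := Module.finrank L W
  let u : Fin n → W := fun i => ⟨v i, Submodule.subset_span ⟨i, rfl⟩⟩
  let a : Fin n → Fin m → L := fun i j => b.repr (u i) j
  have hva : ∀ F : Finset (Fin n), LinearIndependent L (fun i : F => v i) ↔
      LinearIndependent L (fun i : F => a i) := by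
    intro F
    have h1 : (fun i : F => v i) = W.subtype ∘ (fun i : F => u i) := rfl
    have h2 : (fun i : F => a i) = b.equivFun ∘ (fun i : F => u i) := rfl
    rw [h1, h2, LinearMap.linearIndependent_iff _ (Submodule.ker_subtype W)]
    exact (LinearMap.linearIndependent_iff (b.equivFun : W →ₗ[L] (Fin m → L))
      (LinearEquiv.ker b.equivFun)).symm
  -- certificates
  have hcert : ∀ F : Finset (Fin n),
      (∃ c : Fin n → Fin m → L, LinearIndependent L (fun i : F => a i) ∧
        ∀ i ∈ F, ∀ i' ∈ F, ∑ j, c i j * a i' j = if i = i' then 1 else 0) ∨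
      (∃ r : Fin n → L, ¬ LinearIndependent L (fun i : F => a i) ∧
        (∀ j, ∑ i ∈ F, r i * a i j = 0) ∧ ∃ i ∈ F, r i = 1) := by
    intro F
    by_cases h : LinearIndependent L (fun i : F => a i)
    · left
      obtain ⟨g, hg⟩ : ∃ g : (Fin m → L) →ₗ[L] (F → L), ∀ i : F, g (a i) = Pi.single i 1 := by
        obtain ⟨g, hg⟩ := LinearMap.exists_extend (p := Submodule.span L (Set.range fun i : F => a i))
          ((Finsupp.linearEquivFunOnFinite L L F).toLinearMap ∘ₗ h.repr)
        refine ⟨g, fun i => ?_⟩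
        have h1 := LinearMap.congr_fun hg ⟨a i, Submodule.subset_span ⟨i, rfl⟩⟩
        simp only [LinearMap.comp_apply, Submodule.subtype_apply] at h1
        rw [h1]
        rw [h.repr_eq_single i _ rfl]
        ext k
        simp [Pi.single_apply, Finsupp.single_apply, eq_comm]
      refine ⟨fun i j => if hi : i ∈ F then g (Pi.single j 1) ⟨i, hi⟩ else 0, h, ?_⟩
      intro i hi i' hi'
      have h1 := congrFun (hg ⟨i', hi'⟩) ⟨i, hi⟩
      have h2 : a i' = ∑ j, a i' j • (Pi.single j 1 : Fin m → L) := by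
        ext k
        simp [Finset.sum_apply, Pi.single_apply]
      rw [show a (⟨i', hi'⟩ : F) = a i' from rfl, h2, map_sum] at h1
      simp only [map_smul, Finset.sum_apply, Pi.smul_apply, smul_eq_mul] at h1
      simp only [dif_pos hi]
      rw [show (∑ j, g (Pi.single j 1) ⟨i, hi⟩ * a i' j) =
        ∑ j, a i' j * g (Pi.single j 1) ⟨i, hi⟩ from Finset.sum_congr rfl fun j _ => mul_comm _ _,
        h1]
      simp [Pi.single_apply, Subtype.ext_iff]
    · right
      rw [Fintype.linearIndependent_iff] at h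
      push Not at h
      obtain ⟨g, hg, i0, hi0⟩ := h
      refine ⟨fun i => if hi : i ∈ F then (g i0)⁻¹ * g ⟨i, hi⟩ else 0, ?_, ?_, i0.1, i0.2, ?_⟩
      · intro h
        rw [Fintype.linearIndependent_iff] at h
        exact hi0 (h g hg i0)
      · intro j
        have h1 := congrFun hg j
        simp only [Finset.sum_apply, Pi.smul_apply, smul_eq_mul, Pi.zero_apply] at h1
        rw [← Finset.sum_attach]
        have h2 : ∀ i : F, (if hi : (i : Fin n) ∈ F then (g i0)⁻¹ * g ⟨i, hi⟩ else 0) * a i j =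
            (g i0)⁻¹ * (g i * a i j) := by
          intro i
          rw [dif_pos i.2, mul_assoc]
        rw [Finset.sum_congr rfl fun i _ => h2 i, ← Finset.mul_sum]
        rw [show (∑ i ∈ F.attach, g i * a i j) = ∑ i : F, g i * a i j from rfl, h1, mul_zero]
      · simp only [Subtype.coe_eta]
        rw [dif_pos i0.2]
        exact inv_mul_cancel₀ hi0
  have hcert' : ∀ F : Finset (Fin n), ∃ (c : Fin n → Fin m → L) (r : Fin n → L),
      (LinearIndependent L (fun i : F => a i) ∧
        ∀ i ∈ F, ∀ i' ∈ F, ∑ j, c i j * a i' j = if i = i' then 1 else 0) ∨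
      (¬ LinearIndependent L (fun i : F => a i) ∧
        (∀ j, ∑ i ∈ F, r i * a i j = 0) ∧ ∃ i ∈ F, r i = 1) := by
    intro F
    rcases hcert F with ⟨c, hc⟩ | ⟨r, hr⟩
    · exact ⟨c, 0, Or.inl hc⟩
    · exact ⟨0, r, Or.inr hr⟩
  choose c r hcr using hcert'
  let T : Finset L := (Finset.univ.image fun p : Fin n × Fin m => a p.1 p.2) ∪
    ((Finset.univ.image fun p : Finset (Fin n) × Fin n × Fin m => c p.1 p.2.1 p.2.2) ∪
      (Finset.univ.image fun p : Finset (Fin n) × Fin n => r p.1 p.2))
  obtain ⟨φ⟩ := exists_hom T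
  have ha : ∀ i j, a i j ∈ Algebra.adjoin ℚ (T : Set L) := fun i j =>
    Algebra.subset_adjoin (Finset.mem_coe.2 (Finset.mem_union_left _
      (Finset.mem_image.2 ⟨(i, j), Finset.mem_univ _, rfl⟩)))
  have hc : ∀ F i j, c F i j ∈ Algebra.adjoin ℚ (T : Set L) := fun F i j =>
    Algebra.subset_adjoin (Finset.mem_coe.2 (Finset.mem_union_right _ (Finset.mem_union_left _
      (Finset.mem_image.2 ⟨(F, i, j), Finset.mem_univ _, rfl⟩))))
  have hr : ∀ F i, r F i ∈ Algebra.adjoin ℚ (T : Set L) := fun F i =>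
    Algebra.subset_adjoin (Finset.mem_coe.2 (Finset.mem_union_right _ (Finset.mem_union_right _
      (Finset.mem_image.2 ⟨(F, i), Finset.mem_univ _, rfl⟩))))
  refine ⟨m, fun i j => φ ⟨a i j, ha i j⟩, fun F => ?_⟩
  rw [hva F]
  rcases hcr F with ⟨h1, h2⟩ | ⟨h1, h2, i0, hi0, h3⟩
  · refine ⟨fun _ => ?_, fun _ => h1⟩
    rw [Fintype.linearIndependent_iff]
    intro g hg i
    have h4 : ∀ i' : F, ∑ j, φ ⟨c F i j, hc F i j⟩ * φ ⟨a i' j, ha i' j⟩ =
        if i = i' then 1 else 0 := by
      intro i'
      have h5 : ∑ j, (⟨c F i j, hc F i j⟩ : Algebra.adjoin ℚ (T : Set L)) * ⟨a i' j, ha i' j⟩ =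
          if i = i' then 1 else 0 := by
        refine Subtype.ext ?_
        have h6 := h2 i i.2 i' i'.2
        by_cases hii : i = i'
        · rw [if_pos hii]
          rw [if_pos (congrArg Subtype.val hii)] at h6
          rw [AddSubmonoidClass.coe_finsetSum]
          exact h6
        · rw [if_neg hii]
          rw [if_neg fun h => hii (Subtype.ext h)] at h6
          rw [AddSubmonoidClass.coe_finsetSum]
          exact h6
      have h7 := congrArg φ h5
      rw [map_sum] at h7
      simp only [map_mul] at h7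
      rw [h7]
      split_ifs
      · exact map_one φ
      · exact map_zero φ
    have h8 : ∑ i' : F, g i' * ∑ j, φ ⟨c F i j, hc F i j⟩ * φ ⟨a i' j, ha i' j⟩ = 0 := by
      simp only [Finset.mul_sum]
      rw [Finset.sum_comm]
      refine Finset.sum_eq_zero fun j _ => ?_
      have h9 := congrFun hg j
      simp only [Finset.sum_apply, Pi.smul_apply, smul_eq_mul, Pi.zero_apply] at h9
      rw [← mul_zero (φ ⟨c F i j, hc F i j⟩), ← h9, Finset.mul_sum]
      exact Finset.sum_congr rfl fun _ _ => by ring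
    simp only [h4] at h8
    simpa using h8
  · refine ⟨fun h => absurd h h1, fun h => ?_⟩
    exfalso
    rw [Fintype.linearIndependent_iff] at h
    have h4 := h (fun i => φ ⟨r F i, hr F i⟩) (by
      funext j
      simp only [Finset.sum_apply, Pi.smul_apply, smul_eq_mul, Pi.zero_apply]
      have h5 : ∑ i : F, (⟨r F i, hr F i⟩ : Algebra.adjoin ℚ (T : Set L)) * ⟨a i j, ha i j⟩ = 0 := by
        refine Subtype.ext ?_
        rw [AddSubmonoidClass.coe_finsetSum]
        have h6 := h2 j
        rw [← Finset.sum_attach] at h6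
        exact h6
      have h7 := congrArg φ h5
      rw [map_sum, map_zero] at h7
      simpa only [map_mul] using h7) ⟨i0, hi0⟩
    have h5 : (⟨r F i0, hr F i0⟩ : Algebra.adjoin ℚ (T : Set L)) = 1 := Subtype.ext h3
    simp only [h5, map_one] at h4
    exact one_ne_zero h4

end Pool.Agent.H61LM
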